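import Mathlib

set_option autoImplicit false

/-!
# The longest path after the (1,1) random edge-removal process

We prove that the expected maximum directed path length `L_n` of the output of the
`(1,1)` edge-removal process on `n` vertices satisfies `E[L_n] = Θ(log n)`.
-/

open Finset

namespace Pool.Agent.Results.MP_25bd62_pr.ThetaLog

/-! ## Definitions -/

/-- The edges `(a, b)` with `1 ≤ a < b ≤ n` of the complete graph on the vertices `1, …, n`. -/
def edges (n : ℕ) : Finset (ℕ × ℕ) :=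
  (Icc 1 n ×ˢ Icc 1 n).filter (fun e => e.1 < e.2)

/-- The initial vertices (in-degree `0`) of the graph on `1, …, n` with edge set `E`. -/
def initials (n : ℕ) (E : Finset (ℕ × ℕ)) : Finset ℕ :=
  (Icc 1 n).filter (fun v => ∀ e ∈ E, e.2 ≠ v)

/-- The terminal vertices (out-degree `0`) of the graph on `1, …, n` with edge set `E`. -/
def terminals (n : ℕ) (E : Finset (ℕ × ℕ)) : Finset ℕ :=
  (Icc 1 n).filter (fun v => ∀ e ∈ E, e.1 ≠ v)

/-- Examining the edge `e` of the current graph `E`: it is deleted unless deleting it would leave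
more than one initial vertex or more than one terminal vertex. -/
def examine (n : ℕ) (E : Finset (ℕ × ℕ)) (e : ℕ × ℕ) : Finset (ℕ × ℕ) :=
  if 1 < (initials n (E.erase e)).card ∨ 1 < (terminals n (E.erase e)).card
    then E else E.erase e

/-- The orderings of all the edges of the complete graph: bijections from positions to edges. -/
abbrev EdgeOrder (n : ℕ) : Type := Fin (edges n).card ≃ {e : ℕ × ℕ // e ∈ edges n}

/-- The graph that is left after the first `k` edges in the order `σ` have been examined, starting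
from the complete graph. -/
def graphAfter (n : ℕ) (σ : EdgeOrder n) : ℕ → Finset (ℕ × ℕ)
  | 0 => edges n
  | k + 1 =>
    if h : k < (edges n).card then
      examine n (graphAfter n σ k) ((σ ⟨k, h⟩ : {e : ℕ × ℕ // e ∈ edges n}) : ℕ × ℕ)
    else graphAfter n σ k

/-- The output of the `(1,1)` edge-removal process for the order `σ`: the graph left after all
the edges have been examined. -/
def output (n : ℕ) (σ : EdgeOrder n) : Finset (ℕ × ℕ) := graphAfter n σ (edges n).card

/-- The largest number `k` of edges of a directed path `x 0 → x 1 → ⋯ → x k` in the graph with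
edge set `E`. -/
noncomputable def maxPathLength (E : Finset (ℕ × ℕ)) : ℕ :=
  sSup {k : ℕ | ∃ x : ℕ → ℕ, ∀ i < k, (x i, x (i + 1)) ∈ E}

/-- The expectation of `L_n`: the average of the maximum directed path length of the output of
the process over all orderings of the edges. -/
noncomputable def expectedL (n : ℕ) : ℝ :=
  (∑ σ : EdgeOrder n, (maxPathLength (output n σ) : ℝ)) / (Fintype.card (EdgeOrder n) : ℝ)

/-! ## Random orderings -/

section Abstract

variable {N : ℕ} {E : Type*} [DecidableEq E]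

/-- `e` comes last among the elements of `A` in the order `σ`. -/
def Last (σ : Fin N ≃ E) (A : Finset E) (e : E) : Prop := ∀ f ∈ A, σ.symm f ≤ σ.symm e

open Classical in
lemma sum_last [Fintype E] (A : Finset E) (e : E) (he : e ∈ A) (φ : (Fin N ≃ E) → ℝ)
    (hφ : ∀ f ∈ A, ∀ σ, φ (σ.trans (Equiv.swap e f)) = φ σ) :
    (A.card : ℝ) * ∑ σ, (if Last σ A e then φ σ else 0) = ∑ σ, φ σ := by
  classical
  have h1 : ∀ f ∈ A, ∑ σ, (if Last σ A f then φ σ else 0)
      = ∑ σ, (if Last σ A e then φ σ else 0) := by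
    intro f hf
    have hbij : ∀ σ : Fin N ≃ E, Last (σ.trans (Equiv.swap e f)) A f ↔ Last σ A e := by
      intro σ
      have hmem : ∀ g ∈ A, Equiv.swap e f g ∈ A := by
        intro g hg
        by_cases h1 : g = e
        · subst h1; simpa using hf
        · by_cases h2 : g = f
          · subst h2; simpa using he
          · rw [Equiv.swap_apply_of_ne_of_ne h1 h2]; exact hg
      constructor
      · intro h g hg
        have := h (Equiv.swap e f g) (hmem g hg)
        simpa [Equiv.symm_trans_apply, Equiv.symm_swap] using this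
      · intro h g hg
        have := h (Equiv.swap e f g) (hmem g hg)
        simpa [Equiv.symm_trans_apply, Equiv.symm_swap] using this
    let T : (Fin N ≃ E) ≃ (Fin N ≃ E) :=
      { toFun := fun σ => σ.trans (Equiv.swap e f)
        invFun := fun σ => σ.trans (Equiv.swap e f)
        left_inv := by
          intro σ; ext i; simp
        right_inv := by
          intro σ; ext i; simp }
    rw [← Equiv.sum_comp T]
    apply Finset.sum_congr rfl
    intro σ _
    have hT : T σ = σ.trans (Equiv.swap e f) := rfl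
    rw [hT]
    simp only [hbij σ, hφ f hf σ]
  have h2 : ∑ f ∈ A, ∑ σ, (if Last σ A f then φ σ else 0) = ∑ σ, φ σ := by
    rw [Finset.sum_comm]
    apply Finset.sum_congr rfl
    intro σ _
    obtain ⟨m, hm, hmax⟩ := Finset.exists_max_image A (fun g => σ.symm g) ⟨e, he⟩
    rw [Finset.sum_eq_single m]
    · rw [if_pos]; exact hmax
    · intro b hb hbm
      rw [if_neg]
      intro hl
      apply hbm
      have h3 := hl m hm
      have h4 := hmax b hb
      exact σ.symm.injective (le_antisymm h4 h3)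
    · intro h; exact absurd hm h
  rw [Finset.sum_congr rfl h1, Finset.sum_const, nsmul_eq_mul] at h2
  exact h2

end Abstract

section Growth

variable {N : ℕ} {E : Type*} [DecidableEq E]

open Classical in
/-- The (majorant) indicator of the presence of the edge `ε`, which has to be last in `A` or in
`insert ε P`. -/
noncomputable def J (σ : Fin N ≃ E) (I P : ℕ → Finset E) (ε : ℕ → ℕ → E) (x y : ℕ) : ℝ :=
  (if Last σ (I y) (ε x y) then 1 else 0) + (if Last σ (insert (ε x y) (P x)) (ε x y) then 1 else 0)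

/-- The generating function (at `2`) of the lengths of the paths ending at `y`. -/
noncomputable def M (σ : Fin N ≃ E) (I P : ℕ → Finset E) (ε : ℕ → ℕ → E) : ℕ → ℝ
  | y => 1 + 2 * ∑ x : Fin y, (if 1 ≤ (x : ℕ) then J σ I P ε x y * M σ I P ε x else 0)

lemma J_nonneg (σ : Fin N ≃ E) (I P : ℕ → Finset E) (ε : ℕ → ℕ → E) (x y : ℕ) :
    0 ≤ J σ I P ε x y := by
  unfold J
  positivity

lemma M_ge_one (σ : Fin N ≃ E) (I P : ℕ → Finset E) (ε : ℕ → ℕ → E) (y : ℕ) :
    1 ≤ M σ I P ε y := by
  induction y using Nat.strong_induction_on with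
  | _ y ih =>
    rw [M]
    have : 0 ≤ ∑ x : Fin y, (if 1 ≤ (x : ℕ) then J σ I P ε x y * M σ I P ε x else 0) := by
      apply Finset.sum_nonneg
      intro x _
      split_ifs
      · exact mul_nonneg (J_nonneg _ _ _ _ _ _) (le_trans zero_le_one (ih x x.2))
      · exact le_rfl
    linarith

lemma J_congr (σ : Fin N ≃ E) (I P : ℕ → Finset E) (ε : ℕ → ℕ → E) (s : Equiv.Perm E) (x y : ℕ)
    (hε : ε x y ∈ I y) (h1 : ∀ g ∈ I y, s.symm g = g) (h2 : ∀ g ∈ P x, s.symm g = g) :
    J (σ.trans s) I P ε x y = J σ I P ε x y := by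
  have hs : s.symm (ε x y) = ε x y := h1 _ hε
  have e1 : Last (σ.trans s) (I y) (ε x y) ↔ Last σ (I y) (ε x y) := by
    unfold Last
    apply forall₂_congr
    intro f hf
    simp only [Equiv.symm_trans_apply]
    rw [hs, h1 f hf]
  have e2 : Last (σ.trans s) (insert (ε x y) (P x)) (ε x y) ↔
      Last σ (insert (ε x y) (P x)) (ε x y) := by
    unfold Last
    apply forall₂_congr
    intro f hf
    simp only [Equiv.symm_trans_apply]
    rw [hs]
    rcases Finset.mem_insert.1 hf with rfl | hf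
    · rw [hs]
    · rw [h2 f hf]
  classical
  unfold J
  congr 1
  · exact if_congr e1 rfl rfl
  · exact if_congr e2 rfl rfl

lemma M_congr (σ : Fin N ≃ E) (I P : ℕ → Finset E) (ε : ℕ → ℕ → E) (s : Equiv.Perm E) (h : ℕ)
    (hε : ∀ x y, 1 ≤ x → x < y → y ≤ h → ε x y ∈ I y) (y : ℕ) (hy : y ≤ h)
    (h1 : ∀ z, 1 ≤ z → z ≤ y → ∀ g ∈ I z, s.symm g = g)
    (h2 : ∀ z, 1 ≤ z → z < y → ∀ g ∈ P z, s.symm g = g) :
    M (σ.trans s) I P ε y = M σ I P ε y := by
  induction y using Nat.strong_induction_on with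
  | _ y ih =>
    rw [M, M]
    congr 2
    apply Finset.sum_congr rfl
    intro x _
    split_ifs with hx
    · have hxy : (x : ℕ) < y := x.2
      rw [J_congr σ I P ε s x y (hε x y hx hxy hy) (h1 y (by omega) le_rfl) (h2 x hx hxy),
        ih x hxy (by omega) (fun z hz1 hz2 => h1 z hz1 (by omega))
          (fun z hz1 hz2 => h2 z hz1 (by omega))]
    · rfl

open Classical in
/-- The expectation of the generating function grows polynomially. -/
lemma sum_M_le [Fintype E] (I P : ℕ → Finset E) (ε : ℕ → ℕ → E) (h : ℕ)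
    (hε : ∀ x y, 1 ≤ x → x < y → y ≤ h → ε x y ∈ I y)
    (hI : ∀ y z, 1 ≤ y → y ≤ h → 1 ≤ z → z ≤ h → y ≠ z → Disjoint (I y) (I z))
    (hP : ∀ y z, 1 ≤ y → y ≤ h → 1 ≤ z → z ≤ h → y ≠ z → Disjoint (P y) (P z))
    (hIP : ∀ y z, 1 ≤ y → y ≤ h → 1 ≤ z → z ≤ h → Disjoint (I y) (P z))
    (cI : ∀ y, 1 ≤ y → y ≤ h → y ≤ (I y).card + 1)
    (cP : ∀ y x, 1 ≤ x → x < y → y ≤ h → y ≤ (P x).card + 2)
    (y : ℕ) (hy1 : 1 ≤ y) (hyh : y ≤ h) :
    ∑ σ : Fin N ≃ E, M σ I P ε y ≤
      (Fintype.card (Fin N ≃ E) : ℝ) * ((y : ℝ) * (y + 1) * (y + 2) * (y + 3) / 24) := by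
  induction y using Nat.strong_induction_on with
  | _ y ih =>
    have key : ∀ x : ℕ, 1 ≤ x → x < y →
        ∑ σ : Fin N ≃ E, J σ I P ε x y * M σ I P ε x
          ≤ (2 / ((y : ℝ) - 1)) * ∑ σ : Fin N ≃ E, M σ I P ε x := by
      intro x hx hxy
      have hy1' : (0 : ℝ) < (y : ℝ) - 1 := by
        have : (2 : ℝ) ≤ (y : ℝ) := by exact_mod_cast (by omega : 2 ≤ y)
        linarith
      have hMnn : 0 ≤ ∑ σ : Fin N ≃ E, M σ I P ε x :=
        Finset.sum_nonneg (fun σ _ => le_trans zero_le_one (M_ge_one σ I P ε x))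
      have hεI := hε x y hx hxy hyh
      -- first part
      have s1 := sum_last (N := N) (I y) (ε x y) hεI (fun σ => M σ I P ε x) (by
        intro f hf σ
        apply M_congr σ I P ε (Equiv.swap (ε x y) f) h hε x (by omega)
        · intro z hz1 hz2 g hg
          have d := hI z y hz1 (by omega) hy1 hyh (by omega)
          rw [Equiv.symm_swap]
          apply Equiv.swap_apply_of_ne_of_ne
          · rintro rfl; exact (Finset.disjoint_left.1 d hg) hεI
          · rintro rfl; exact (Finset.disjoint_left.1 d hg) hf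
        · intro z hz1 hz2 g hg
          have d := hIP y z hy1 hyh hz1 (by omega)
          rw [Equiv.symm_swap]
          apply Equiv.swap_apply_of_ne_of_ne
          · rintro rfl; exact (Finset.disjoint_left.1 d hεI) hg
          · rintro rfl; exact (Finset.disjoint_left.1 d hf) hg)
      -- second part
      have s2 := sum_last (N := N) (insert (ε x y) (P x)) (ε x y) (Finset.mem_insert_self _ _)
        (fun σ => M σ I P ε x) (by
        intro f hf σ
        apply M_congr σ I P ε (Equiv.swap (ε x y) f) h hε x (by omega)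
        · intro z hz1 hz2 g hg
          have d := hI z y hz1 (by omega) hy1 hyh (by omega)
          have d' := hIP z x hz1 (by omega) hx (by omega)
          rw [Equiv.symm_swap]
          apply Equiv.swap_apply_of_ne_of_ne
          · rintro rfl; exact (Finset.disjoint_left.1 d hg) hεI
          · rintro rfl
            rcases Finset.mem_insert.1 hf with hf | hf
            · rw [hf] at hg; exact (Finset.disjoint_left.1 d hg) hεI
            · exact (Finset.disjoint_left.1 d' hg) hf
        · intro z hz1 hz2 g hg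
          have d := hIP y z hy1 hyh hz1 (by omega)
          have d' := hP z x hz1 (by omega) hx (by omega) (by omega)
          rw [Equiv.symm_swap]
          apply Equiv.swap_apply_of_ne_of_ne
          · rintro rfl; exact (Finset.disjoint_left.1 d hεI) hg
          · rintro rfl
            rcases Finset.mem_insert.1 hf with hf | hf
            · rw [hf] at hg; exact (Finset.disjoint_left.1 d hεI) hg
            · exact (Finset.disjoint_left.1 d' hg) hf)
      have hnot : ε x y ∉ P x := by
        intro hmem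
        exact (Finset.disjoint_left.1 (hIP y x hy1 hyh hx (by omega)) hεI) hmem
      have c1 : (y : ℝ) - 1 ≤ ((I y).card : ℝ) := by
        have : (y : ℝ) ≤ ((I y).card : ℝ) + 1 := by exact_mod_cast cI y hy1 hyh
        linarith
      have c2 : (y : ℝ) - 1 ≤ ((insert (ε x y) (P x)).card : ℝ) := by
        rw [Finset.card_insert_of_notMem hnot]
        have : (y : ℝ) ≤ ((P x).card : ℝ) + 2 := by exact_mod_cast cP y x hx hxy hyh
        push_cast
        linarith
      set A1 : ℝ := ∑ σ : Fin N ≃ E, (if Last σ (I y) (ε x y) then M σ I P ε x else 0) with hA1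
      set A2 : ℝ := ∑ σ : Fin N ≃ E,
        (if Last σ (insert (ε x y) (P x)) (ε x y) then M σ I P ε x else 0) with hA2
      have hA1n : 0 ≤ A1 := Finset.sum_nonneg (fun σ _ => by
        split_ifs
        · exact le_trans zero_le_one (M_ge_one σ I P ε x)
        · exact le_rfl)
      have hA2n : 0 ≤ A2 := Finset.sum_nonneg (fun σ _ => by
        split_ifs
        · exact le_trans zero_le_one (M_ge_one σ I P ε x)
        · exact le_rfl)
      have b1 : ((y : ℝ) - 1) * A1 ≤ ∑ σ : Fin N ≃ E, M σ I P ε x := by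
        calc ((y : ℝ) - 1) * A1 ≤ ((I y).card : ℝ) * A1 := by
              exact mul_le_mul_of_nonneg_right c1 hA1n
          _ = _ := s1
      have b2 : ((y : ℝ) - 1) * A2 ≤ ∑ σ : Fin N ≃ E, M σ I P ε x := by
        calc ((y : ℝ) - 1) * A2 ≤ ((insert (ε x y) (P x)).card : ℝ) * A2 := by
              exact mul_le_mul_of_nonneg_right c2 hA2n
          _ = _ := s2
      have hsplit : ∑ σ : Fin N ≃ E, J σ I P ε x y * M σ I P ε x = A1 + A2 := by
        rw [hA1, hA2, ← Finset.sum_add_distrib]
        apply Finset.sum_congr rfl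
        intro σ _
        unfold J
        rw [add_mul]
        congr 1 <;> split_ifs <;> simp
      rw [hsplit, div_mul_eq_mul_div, le_div_iff₀ hy1']
      nlinarith
    -- now sum up
    set c : ℝ := (Fintype.card (Fin N ≃ E) : ℝ) with hc
    have hc0 : 0 ≤ c := by positivity
    have hexp : ∑ σ : Fin N ≃ E, M σ I P ε y = c + 2 * ∑ x : Fin y,
        (if 1 ≤ (x : ℕ) then ∑ σ : Fin N ≃ E, J σ I P ε x y * M σ I P ε x else 0) := by
      have : ∀ σ : Fin N ≃ E, M σ I P ε y = 1 + 2 * ∑ x : Fin y,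
        (if 1 ≤ (x : ℕ) then J σ I P ε x y * M σ I P ε x else 0) := by
        intro σ
        rw [M]
      simp_rw [this]
      rw [Finset.sum_add_distrib, ← Finset.mul_sum, Finset.sum_comm]
      congr 1
      · simp [hc]
      · congr 1
        apply Finset.sum_congr rfl
        intro x _
        split_ifs
        · rfl
        · simp
    have hle : ∑ x : Fin y,
        (if 1 ≤ (x : ℕ) then ∑ σ : Fin N ≃ E, J σ I P ε x y * M σ I P ε x else 0)
        ≤ ∑ x : Fin y, (2 / ((y : ℝ) - 1)) *
          (c * (((x : ℕ) : ℝ) * ((x : ℕ) + 1) * ((x : ℕ) + 2) * ((x : ℕ) + 3) / 24)) := by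
      apply Finset.sum_le_sum
      intro x _
      have hy1' : (0 : ℝ) ≤ (y : ℝ) - 1 := by
        have : (1 : ℝ) ≤ (y : ℝ) := by exact_mod_cast hy1
        linarith
      split_ifs with hx
      · refine le_trans (key x hx x.2) ?_
        apply mul_le_mul_of_nonneg_left (ih x x.2 hx (by omega))
        positivity
      · positivity
    have hsum : ∀ m : ℕ, ∑ x : Fin m,
        (((x : ℕ) : ℝ) * ((x : ℕ) + 1) * ((x : ℕ) + 2) * ((x : ℕ) + 3) / 24)
        = ((m : ℝ) - 1) * m * (m + 1) * (m + 2) * (m + 3) / 120 := by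
      intro m
      rw [Fin.sum_univ_eq_sum_range
        (fun i : ℕ => ((i : ℝ) * (i + 1) * (i + 2) * (i + 3) / 24)) m]
      induction m with
      | zero => simp
      | succ m ihm =>
        rw [Finset.sum_range_succ, ihm]
        push_cast
        ring
    rw [hexp]
    rcases Nat.eq_or_lt_of_le hy1 with hy | hy
    · subst hy
      have hz : ∑ x : Fin 1,
        (if 1 ≤ (x : ℕ) then ∑ σ : Fin N ≃ E, J σ I P ε x 1 * M σ I P ε x else 0) = 0 := by
        simp
      rw [hz]
      push_cast
      linarith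
    · have hy2 : (2 : ℝ) ≤ (y : ℝ) := by exact_mod_cast hy
      have hy1' : (0 : ℝ) < (y : ℝ) - 1 := by linarith
      have e3 : ∑ x : Fin y, (2 / ((y : ℝ) - 1)) *
          (c * (((x : ℕ) : ℝ) * ((x : ℕ) + 1) * ((x : ℕ) + 2) * ((x : ℕ) + 3) / 24))
          = c * (y * (y + 1) * (y + 2) * (y + 3) / 60) := by
        rw [← Finset.mul_sum, ← Finset.mul_sum, hsum y]
        field_simp
        ring
      rw [e3] at hle
      have hbig : (5 : ℝ) ≤ y * (y + 1) * (y + 2) * (y + 3) / 24 := by
        have : (2 : ℝ) * 3 * 4 * 5 ≤ y * (y + 1) * (y + 2) * (y + 3) := by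
          gcongr <;> linarith
        linarith
      nlinarith

/-- A path of `k` edges in the low region forces the generating function to be at least `2 ^ k`. -/
lemma two_pow_le_M (σ : Fin N ≃ E) (I P : ℕ → Finset E) (ε : ℕ → ℕ → E) (k : ℕ) (x : ℕ → ℕ)
    (h0 : 1 ≤ x 0) (hmono : ∀ i < k, x i < x (i + 1))
    (hlast : ∀ i < k, Last σ (I (x (i + 1))) (ε (x i) (x (i + 1))) ∨
      Last σ (insert (ε (x i) (x (i + 1))) (P (x i))) (ε (x i) (x (i + 1)))) :
    (2 : ℝ) ^ k ≤ M σ I P ε (x k) := by
  have hpos : ∀ i ≤ k, 1 ≤ x i := by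
    intro i hi
    induction i with
    | zero => exact h0
    | succ i ih =>
      have := hmono i (by omega)
      have := ih (by omega)
      omega
  induction k with
  | zero => simpa using M_ge_one σ I P ε (x 0)
  | succ k ih =>
    have ih' := ih (fun i hi => hmono i (by omega)) (fun i hi => hlast i (by omega))
      (fun i hi => hpos i (by omega))
    have hJ : 1 ≤ J σ I P ε (x k) (x (k + 1)) := by
      classical
      unfold J
      rcases hlast k (by omega) with hl | hl
      · rw [if_pos hl]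
        split_ifs <;> norm_num
      · rw [if_pos hl]
        split_ifs <;> norm_num
    rw [M]
    have hsing : J σ I P ε (x k) (x (k + 1)) * M σ I P ε (x k) ≤
        ∑ z : Fin (x (k + 1)),
          (if 1 ≤ (z : ℕ) then J σ I P ε z (x (k + 1)) * M σ I P ε z else 0) := by
      have := Finset.single_le_sum (f := fun z : Fin (x (k + 1)) =>
          (if 1 ≤ (z : ℕ) then J σ I P ε z (x (k + 1)) * M σ I P ε z else 0))
          (s := Finset.univ) (by
            intro z _
            split_ifs
            · exact mul_nonneg (J_nonneg _ _ _ _ _ _)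
                (le_trans zero_le_one (M_ge_one _ _ _ _ _))
            · exact le_rfl) (Finset.mem_univ (⟨x k, hmono k (by omega)⟩ : Fin (x (k + 1))))
      simpa [hpos k (by omega)] using this
    have hMk := M_ge_one σ I P ε (x k)
    have : (2 : ℝ) ^ k ≤ J σ I P ε (x k) (x (k + 1)) * M σ I P ε (x k) := by
      calc (2 : ℝ) ^ k ≤ M σ I P ε (x k) := ih'
        _ = 1 * M σ I P ε (x k) := (one_mul _).symm
        _ ≤ _ := mul_le_mul_of_nonneg_right hJ (by linarith)
    rw [pow_succ]
    linarith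

end Growth

/-! ## The process -/

section Process

lemma mem_edges {n : ℕ} {e : ℕ × ℕ} : e ∈ edges n ↔ 1 ≤ e.1 ∧ e.1 < e.2 ∧ e.2 ≤ n := by
  unfold edges
  simp only [Finset.mem_filter, Finset.mem_product, Finset.mem_Icc]
  constructor
  · rintro ⟨⟨⟨h1, h2⟩, h3, h4⟩, h5⟩
    exact ⟨h1, h5, h4⟩
  · rintro ⟨h1, h2, h3⟩
    exact ⟨⟨⟨h1, by omega⟩, by omega, h3⟩, h2⟩

lemma examine_subset (n : ℕ) (E : Finset (ℕ × ℕ)) (e : ℕ × ℕ) : examine n E e ⊆ E := by
  unfold examine
  split_ifs
  · exact Finset.Subset.refl _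
  · exact Finset.erase_subset _ _

lemma erase_subset_examine (n : ℕ) (E : Finset (ℕ × ℕ)) (e : ℕ × ℕ) :
    E.erase e ⊆ examine n E e := by
  unfold examine
  split_ifs
  · exact Finset.erase_subset _ _
  · exact Finset.Subset.refl _

variable {n : ℕ} (σ : EdgeOrder n)

lemma graphAfter_succ_subset (k : ℕ) : graphAfter n σ (k + 1) ⊆ graphAfter n σ k := by
  rw [graphAfter]
  split_ifs
  · exact examine_subset _ _ _
  · exact Finset.Subset.refl _

lemma graphAfter_anti {j k : ℕ} (h : j ≤ k) : graphAfter n σ k ⊆ graphAfter n σ j := by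
  induction k, h using Nat.le_induction with
  | base => exact Finset.Subset.refl _
  | succ k _ ih => exact (graphAfter_succ_subset σ k).trans ih

lemma graphAfter_subset_edges (k : ℕ) : graphAfter n σ k ⊆ edges n :=
  graphAfter_anti σ (Nat.zero_le k)

lemma mem_graphAfter_of_late (e : {e : ℕ × ℕ // e ∈ edges n}) (k : ℕ)
    (hk : k ≤ (σ.symm e : ℕ)) : (e : ℕ × ℕ) ∈ graphAfter n σ k := by
  induction k with
  | zero => exact e.2
  | succ k ih =>
    have h1 := ih (by omega)
    rw [graphAfter]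
    split_ifs with hk'
    · apply erase_subset_examine
      apply Finset.mem_erase.2 ⟨?_, h1⟩
      intro h2
      have h3 : e = σ ⟨k, hk'⟩ := Subtype.ext h2
      rw [h3] at hk
      simp at hk
    · exact h1

lemma card_initials_edges : (initials n (edges n)).card ≤ 1 := by
  apply Finset.card_le_one.2
  intro a ha b hb
  unfold initials at ha hb
  simp only [Finset.mem_filter, Finset.mem_Icc] at ha hb
  have h1 : ¬ 1 < a := by
    intro h
    exact ha.2 (1, a) (mem_edges.2 ⟨le_rfl, h, ha.1.2⟩) rfl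
  have h2 : ¬ 1 < b := by
    intro h
    exact hb.2 (1, b) (mem_edges.2 ⟨le_rfl, h, hb.1.2⟩) rfl
  omega

lemma card_terminals_edges : (terminals n (edges n)).card ≤ 1 := by
  apply Finset.card_le_one.2
  intro a ha b hb
  unfold terminals at ha hb
  simp only [Finset.mem_filter, Finset.mem_Icc] at ha hb
  have h1 : ¬ a < n := by
    intro h
    exact ha.2 (a, n) (mem_edges.2 ⟨ha.1.1, h, le_rfl⟩) rfl
  have h2 : ¬ b < n := by
    intro h
    exact hb.2 (b, n) (mem_edges.2 ⟨hb.1.1, h, le_rfl⟩) rfl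
  omega

lemma card_ends_le (k : ℕ) :
    (initials n (graphAfter n σ k)).card ≤ 1 ∧ (terminals n (graphAfter n σ k)).card ≤ 1 := by
  induction k with
  | zero => exact ⟨card_initials_edges, card_terminals_edges⟩
  | succ k ih =>
    rw [graphAfter]
    split_ifs with hk
    · unfold examine
      split_ifs with h
      · exact ih
      · push Not at h
        exact h
    · exact ih

/-- A kept edge is the last in-edge of its head or the last out-edge of its tail. -/
lemma last_of_mem_output (e : {e : ℕ × ℕ // e ∈ edges n}) (he : (e : ℕ × ℕ) ∈ output n σ) :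
    (∀ f : {e : ℕ × ℕ // e ∈ edges n}, f.1.2 = e.1.2 → σ.symm f ≤ σ.symm e) ∨
    (∀ f : {e : ℕ × ℕ // e ∈ edges n}, f.1.1 = e.1.1 → σ.symm f ≤ σ.symm e) := by
  set i : Fin (edges n).card := σ.symm e with hi
  have hσ : σ i = e := by rw [hi]; simp
  have h1 : (e : ℕ × ℕ) ∈ graphAfter n σ (i + 1) :=
    graphAfter_anti σ (by have := i.2; omega : (i : ℕ) + 1 ≤ (edges n).card) he
  rw [graphAfter, dif_pos i.2] at h1
  have h2 : σ ⟨(i : ℕ), i.2⟩ = e := hσ
  rw [h2] at h1
  unfold examine at h1
  split_ifs at h1 with hc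
  · obtain ⟨hin, hter⟩ := card_ends_le σ (i : ℕ)
    rcases hc with hc | hc
    · left
      by_contra hcon
      push Not at hcon
      obtain ⟨f, hf1, hf2⟩ := hcon
      have hfG : (f : ℕ × ℕ) ∈ graphAfter n σ i := mem_graphAfter_of_late σ f i (le_of_lt hf2)
      have hfe : (f : ℕ × ℕ) ≠ e := by
        intro h
        have : f = e := Subtype.ext h
        rw [this] at hf2
        exact lt_irrefl _ hf2
      have hsub : initials n ((graphAfter n σ i).erase e) ⊆ initials n (graphAfter n σ i) := by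
        intro v hv
        unfold initials at hv ⊢
        simp only [Finset.mem_filter] at hv ⊢
        refine ⟨hv.1, fun g hg => ?_⟩
        by_cases hge : g = e
        · rw [hge, ← hf1]
          exact hv.2 f (Finset.mem_erase.2 ⟨hfe, hfG⟩)
        · exact hv.2 g (Finset.mem_erase.2 ⟨hge, hg⟩)
      have := Finset.card_le_card hsub
      omega
    · right
      by_contra hcon
      push Not at hcon
      obtain ⟨f, hf1, hf2⟩ := hcon
      have hfG : (f : ℕ × ℕ) ∈ graphAfter n σ i := mem_graphAfter_of_late σ f i (le_of_lt hf2)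
      have hfe : (f : ℕ × ℕ) ≠ e := by
        intro h
        have : f = e := Subtype.ext h
        rw [this] at hf2
        exact lt_irrefl _ hf2
      have hsub : terminals n ((graphAfter n σ i).erase e) ⊆ terminals n (graphAfter n σ i) := by
        intro v hv
        unfold terminals at hv ⊢
        simp only [Finset.mem_filter] at hv ⊢
        refine ⟨hv.1, fun g hg => ?_⟩
        by_cases hge : g = e
        · rw [hge, ← hf1]
          exact hv.2 f (Finset.mem_erase.2 ⟨hfe, hfG⟩)
        · exact hv.2 g (Finset.mem_erase.2 ⟨hge, hg⟩)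
      have := Finset.card_le_card hsub
      omega
  · exact absurd rfl (Finset.mem_erase.1 h1).1

/-- Every vertex except the first keeps an in-edge. -/
lemma exists_in_edge (y : ℕ) (h2 : 2 ≤ y) (hy : y ≤ n) : ∃ x, (x, y) ∈ output n σ := by
  by_contra hcon
  push Not at hcon
  have h := (card_ends_le σ (edges n).card).1
  have h1 : 1 ∈ initials n (output n σ) := by
    unfold initials
    simp only [Finset.mem_filter, Finset.mem_Icc]
    refine ⟨⟨le_rfl, by omega⟩, fun e he => ?_⟩
    have := mem_edges.1 (graphAfter_subset_edges σ _ he)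
    omega
  have h3 : y ∈ initials n (output n σ) := by
    unfold initials
    simp only [Finset.mem_filter, Finset.mem_Icc]
    refine ⟨⟨by omega, hy⟩, fun e he hey => ?_⟩
    apply hcon e.1
    rw [← hey]
    exact he
  have := Finset.card_le_one.1 h 1 h1 y h3
  omega

end Process

/-! ## Path lengths -/

section Paths

/-- There is a directed path with `k` edges. -/
def HasPath (E : Finset (ℕ × ℕ)) (k : ℕ) : Prop := ∃ x : ℕ → ℕ, ∀ i < k, (x i, x (i + 1)) ∈ E

lemma HasPath.mono {E : Finset (ℕ × ℕ)} {k l : ℕ} (h : HasPath E k) (hl : l ≤ k) :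
    HasPath E l := by
  obtain ⟨x, hx⟩ := h
  exact ⟨x, fun i hi => hx i (by omega)⟩

lemma HasPath.le {n : ℕ} {E : Finset (ℕ × ℕ)} (hE : E ⊆ edges n) {k : ℕ} (h : HasPath E k) :
    k ≤ n := by
  obtain ⟨x, hx⟩ := h
  have h1 : ∀ i ≤ k, i ≤ x i := by
    intro i hi
    induction i with
    | zero => omega
    | succ i ih =>
      have := mem_edges.1 (hE (hx i (by omega)))
      have := ih (by omega)
      simp only at *
      omega
  rcases Nat.eq_zero_or_pos k with h0 | h0
  · omega
  · have h2 := h1 k le_rfl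
    have h3 := mem_edges.1 (hE (hx (k - 1) (by omega)))
    have h4 : k - 1 + 1 = k := by omega
    rw [h4] at h3
    simp only at h3
    omega

lemma bddAbove_paths {n : ℕ} {E : Finset (ℕ × ℕ)} (hE : E ⊆ edges n) :
    BddAbove {k : ℕ | ∃ x : ℕ → ℕ, ∀ i < k, (x i, x (i + 1)) ∈ E} :=
  ⟨n, fun _ hk => HasPath.le hE hk⟩

lemma hasPath_maxPathLength {n : ℕ} {E : Finset (ℕ × ℕ)} (hE : E ⊆ edges n) :
    HasPath E (maxPathLength E) := by
  have := Nat.sSup_mem (s := {k : ℕ | ∃ x : ℕ → ℕ, ∀ i < k, (x i, x (i + 1)) ∈ E})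
    ⟨0, ⟨fun _ => 0, by intro i hi; omega⟩⟩ (bddAbove_paths hE)
  exact this

lemma le_maxPathLength {n : ℕ} {E : Finset (ℕ × ℕ)} (hE : E ⊆ edges n) {k : ℕ}
    (h : HasPath E k) : k ≤ maxPathLength E :=
  le_csSup (bddAbove_paths hE) h

end Paths

/-! ## Stars -/

section Stars

variable (n : ℕ)

/-- The in-edges of `y`. -/
def InE (y : ℕ) : Finset {e : ℕ × ℕ // e ∈ edges n} := Finset.univ.filter (fun e => e.1.2 = y)

/-- The out-edges of `x`. -/
def OutE (x : ℕ) : Finset {e : ℕ × ℕ // e ∈ edges n} := Finset.univ.filter (fun e => e.1.1 = x)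

/-- The edge `(x, y)` (with a default value if this is not an edge). -/
def mkE (hn : 2 ≤ n) (x y : ℕ) : {e : ℕ × ℕ // e ∈ edges n} :=
  if h : (x, y) ∈ edges n then ⟨(x, y), h⟩ else ⟨(1, 2), mem_edges.2 ⟨le_rfl, by norm_num, hn⟩⟩

variable {n}

lemma mkE_val (hn : 2 ≤ n) {x y : ℕ} (h1 : 1 ≤ x) (h2 : x < y) (h3 : y ≤ n) :
    (mkE n hn x y : ℕ × ℕ) = (x, y) := by
  unfold mkE
  rw [dif_pos (mem_edges.2 ⟨h1, h2, h3⟩)]

lemma mem_InE {y : ℕ} {e : {e : ℕ × ℕ // e ∈ edges n}} : e ∈ InE n y ↔ e.1.2 = y := by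
  simp [InE]

lemma mem_OutE {x : ℕ} {e : {e : ℕ × ℕ // e ∈ edges n}} : e ∈ OutE n x ↔ e.1.1 = x := by
  simp [OutE]

lemma card_InE_filter (hn : 2 ≤ n) (y a b : ℕ) (ha : 1 ≤ a) (hb : b ≤ y) (hy : y ≤ n) :
    b - a ≤ ((InE n y).filter (fun e => a ≤ e.1.1 ∧ e.1.1 < b)).card := by
  have : (Finset.Ico a b).card = b - a := by simp
  rw [← this]
  apply Finset.card_le_card_of_injOn (fun z => mkE n hn z y)
  · intro z hz
    have hz' := Finset.mem_Ico.1 hz
    have hv := mkE_val hn (x := z) (y := y) (by omega) (by omega) hy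
    rw [Finset.mem_coe, Finset.mem_filter, mem_InE, hv]
    exact ⟨rfl, hz'.1, hz'.2⟩
  · intro z hz w hw hzw
    have hz' := Finset.mem_Ico.1 hz
    have hw' := Finset.mem_Ico.1 hw
    have hv := mkE_val hn (x := z) (y := y) (by omega) (by omega) hy
    have hv' := mkE_val hn (x := w) (y := y) (by omega) (by omega) hy
    have h3 : (mkE n hn z y : ℕ × ℕ) = (mkE n hn w y : ℕ × ℕ) := congrArg Subtype.val hzw
    rw [hv, hv'] at h3
    exact (Prod.mk.inj h3).1

lemma card_OutE_filter (hn : 2 ≤ n) (x a b : ℕ) (hx : 1 ≤ x) (ha : x < a) (hb : b ≤ n) :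
    b + 1 - a ≤ ((OutE n x).filter (fun e => a ≤ e.1.2 ∧ e.1.2 ≤ b)).card := by
  have : (Finset.Ico a (b + 1)).card = b + 1 - a := by simp
  rw [← this]
  apply Finset.card_le_card_of_injOn (fun z => mkE n hn x z)
  · intro z hz
    have hz' := Finset.mem_Ico.1 hz
    have hv := mkE_val hn (x := x) (y := z) (by omega) (by omega) (by omega)
    rw [Finset.mem_coe, Finset.mem_filter, mem_OutE, hv]
    exact ⟨rfl, hz'.1, Nat.lt_succ_iff.1 hz'.2⟩
  · intro z hz w hw hzw
    have hz' := Finset.mem_Ico.1 hz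
    have hw' := Finset.mem_Ico.1 hw
    have hv := mkE_val hn (x := x) (y := z) (by omega) (by omega) (by omega)
    have hv' := mkE_val hn (x := x) (y := w) (by omega) (by omega) (by omega)
    have h3 : (mkE n hn x z : ℕ × ℕ) = (mkE n hn x w : ℕ × ℕ) := congrArg Subtype.val hzw
    rw [hv, hv'] at h3
    exact (Prod.mk.inj h3).2

end Stars

/-! ## The upper bound -/

section Upper

open Classical in
/-- The counting bound for one half: few orders have a long path in the half described by the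
stars `I`, `P`. -/
lemma count_half {N : ℕ} {E : Type*} [DecidableEq E] [Fintype E]
    (I P : ℕ → Finset E) (ε : ℕ → ℕ → E) (h : ℕ)
    (hε : ∀ x y, 1 ≤ x → x < y → y ≤ h → ε x y ∈ I y)
    (hI : ∀ y z, 1 ≤ y → y ≤ h → 1 ≤ z → z ≤ h → y ≠ z → Disjoint (I y) (I z))
    (hP : ∀ y z, 1 ≤ y → y ≤ h → 1 ≤ z → z ≤ h → y ≠ z → Disjoint (P y) (P z))
    (hIP : ∀ y z, 1 ≤ y → y ≤ h → 1 ≤ z → z ≤ h → Disjoint (I y) (P z))
    (cI : ∀ y, 1 ≤ y → y ≤ h → y ≤ (I y).card + 1)
    (cP : ∀ y x, 1 ≤ x → x < y → y ≤ h → y ≤ (P x).card + 2)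
    (k : ℕ) (S : Finset (Fin N ≃ E))
    (hS : ∀ σ ∈ S, ∃ x : ℕ → ℕ, 1 ≤ x 0 ∧ x k ≤ h ∧ (∀ i < k, x i < x (i + 1)) ∧
      (∀ i < k, Last σ (I (x (i + 1))) (ε (x i) (x (i + 1))) ∨
      Last σ (insert (ε (x i) (x (i + 1))) (P (x i))) (ε (x i) (x (i + 1))))) :
    (S.card : ℝ) * 2 ^ k ≤ (Fintype.card (Fin N ≃ E) : ℝ) * (h : ℝ) ^ 5 := by
  have h1 : (S.card : ℝ) * 2 ^ k ≤ ∑ σ : Fin N ≃ E, ∑ y ∈ Finset.Icc 1 h, M σ I P ε y := by
    calc (S.card : ℝ) * 2 ^ k = ∑ σ ∈ S, (2 : ℝ) ^ k := by
          rw [Finset.sum_const, nsmul_eq_mul]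
      _ ≤ ∑ σ ∈ S, ∑ y ∈ Finset.Icc 1 h, M σ I P ε y := by
          apply Finset.sum_le_sum
          intro σ hσ
          obtain ⟨x, hx0, hxk, hmono, hlast⟩ := hS σ hσ
          have hb := two_pow_le_M σ I P ε k x hx0 hmono hlast
          have hxk1 : 1 ≤ x k := by
            have : ∀ i ≤ k, 1 ≤ x i := by
              intro i hi
              induction i with
              | zero => exact hx0
              | succ i ih =>
                have := hmono i (by omega)
                have := ih (by omega)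
                omega
            exact this k le_rfl
          refine le_trans hb ?_
          apply Finset.single_le_sum (f := fun y => M σ I P ε y)
            (fun y _ => le_trans zero_le_one (M_ge_one σ I P ε y))
            (Finset.mem_Icc.2 ⟨hxk1, hxk⟩)
      _ ≤ ∑ σ : Fin N ≃ E, ∑ y ∈ Finset.Icc 1 h, M σ I P ε y := by
          apply Finset.sum_le_sum_of_subset_of_nonneg (Finset.subset_univ _)
          intro σ _ _
          exact Finset.sum_nonneg (fun y _ => le_trans zero_le_one (M_ge_one σ I P ε y))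
  refine le_trans h1 ?_
  rw [Finset.sum_comm]
  have h2 : ∀ y ∈ Finset.Icc 1 h, ∑ σ : Fin N ≃ E, M σ I P ε y ≤
      (Fintype.card (Fin N ≃ E) : ℝ) * (h : ℝ) ^ 4 := by
    intro y hy
    obtain ⟨hy1, hyh⟩ := Finset.mem_Icc.1 hy
    refine le_trans (sum_M_le I P ε h hε hI hP hIP cI cP y hy1 hyh) ?_
    apply mul_le_mul_of_nonneg_left _ (by positivity)
    have e1 : (1 : ℝ) ≤ (y : ℝ) := by exact_mod_cast hy1
    have e2 : (y : ℝ) ≤ (h : ℝ) := by exact_mod_cast hyh
    have e3 : (y : ℝ) * (y + 1) * (y + 2) * (y + 3) ≤ y * (2 * y) * (3 * y) * (4 * y) := by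
      gcongr <;> linarith
    have e4 : (y : ℝ) ^ 4 ≤ (h : ℝ) ^ 4 := by gcongr
    nlinarith
  refine le_trans (Finset.sum_le_sum h2) ?_
  rw [Finset.sum_const, Nat.card_Icc, nsmul_eq_mul]
  have : ((h + 1 - 1 : ℕ) : ℝ) = (h : ℝ) := by
    congr 1
  rw [this]
  apply le_of_eq
  ring

variable {n : ℕ}

open Classical in
/-- Few orders have a long path in the lower half. -/
lemma count_low (hn : 2 ≤ n) (k : ℕ) :
    (((Finset.univ : Finset (EdgeOrder n)).filter (fun σ => ∃ x : ℕ → ℕ,
      (∀ i < k, (x i, x (i + 1)) ∈ output n σ) ∧ x k ≤ n / 2 ∧ 1 ≤ x 0)).card : ℝ) * 2 ^ k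
      ≤ (Fintype.card (EdgeOrder n) : ℝ) * (n : ℝ) ^ 5 := by
  have h := count_half (N := (edges n).card) (E := {e : ℕ × ℕ // e ∈ edges n})
    (fun y => InE n y) (fun x => (OutE n x).filter (fun e => n / 2 + 1 ≤ e.1.2 ∧ e.1.2 ≤ n))
    (mkE n hn) (n / 2)
    (by
      intro x y h1 h2 h3
      rw [mem_InE, mkE_val hn h1 h2 (by omega)])
    (by
      intro y z _ _ _ _ hyz
      rw [Finset.disjoint_left]
      intro e h1 h2
      rw [mem_InE] at h1 h2
      exact hyz (h1.symm.trans h2))
    (by
      intro y z _ _ _ _ hyz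
      rw [Finset.disjoint_left]
      intro e h1 h2
      rw [Finset.mem_filter, mem_OutE] at h1 h2
      exact hyz (h1.1.symm.trans h2.1))
    (by
      intro y z _ _ _ _
      rw [Finset.disjoint_left]
      intro e h1 h2
      rw [mem_InE] at h1
      rw [Finset.mem_filter, mem_OutE] at h2
      omega)
    (by
      intro y h1 h2
      have := card_InE_filter hn y 1 y le_rfl le_rfl (by omega)
      have h3 := Finset.card_filter_le (InE n y) (fun e => 1 ≤ e.1.1 ∧ e.1.1 < y)
      omega)
    (by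
      intro y x h1 h2 h3
      have := card_OutE_filter hn x (n / 2 + 1) n h1 (by omega) le_rfl
      omega)
    k ((Finset.univ : Finset (EdgeOrder n)).filter (fun σ => ∃ x : ℕ → ℕ,
      (∀ i < k, (x i, x (i + 1)) ∈ output n σ) ∧ x k ≤ n / 2 ∧ 1 ≤ x 0))
    (by
      intro σ hσ
      rw [Finset.mem_filter] at hσ
      obtain ⟨_, x, hx, hxk, hx0⟩ := hσ
      have hedge : ∀ i < k, 1 ≤ x i ∧ x i < x (i + 1) ∧ x (i + 1) ≤ n := by
        intro i hi
        exact mem_edges.1 (graphAfter_subset_edges σ _ (hx i hi))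
      have hmono : ∀ i < k, x i < x (i + 1) := fun i hi => (hedge i hi).2.1
      refine ⟨x, hx0, hxk, hmono, ?_⟩
      intro i hi
      have hv := mkE_val hn (hedge i hi).1 (hedge i hi).2.1 (hedge i hi).2.2
      rcases last_of_mem_output σ (mkE n hn (x i) (x (i + 1))) (by rw [hv]; exact hx i hi)
        with h1 | h1
      · left
        intro f hf
        apply h1
        rw [mem_InE] at hf
        rw [hf, hv]
      · right
        intro f hf
        apply h1
        rcases Finset.mem_insert.1 hf with rfl | hf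
        · rfl
        · rw [Finset.mem_filter, mem_OutE] at hf
          rw [hf.1, hv])
  refine le_trans h ?_
  apply mul_le_mul_of_nonneg_left _ (by positivity)
  have : ((n / 2 : ℕ) : ℝ) ≤ (n : ℝ) := by exact_mod_cast Nat.div_le_self n 2
  gcongr

open Classical in
/-- Few orders have a long path in the upper half. -/
lemma count_up (hn : 2 ≤ n) (k : ℕ) :
    (((Finset.univ : Finset (EdgeOrder n)).filter (fun σ => ∃ x : ℕ → ℕ,
      (∀ i < k, (x i, x (i + 1)) ∈ output n σ) ∧ n / 2 < x 0 ∧ x k ≤ n)).card : ℝ) * 2 ^ k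
      ≤ (Fintype.card (EdgeOrder n) : ℝ) * (n : ℝ) ^ 5 := by
  have h := count_half (N := (edges n).card) (E := {e : ℕ × ℕ // e ∈ edges n})
    (fun y => OutE n (n + 1 - y))
    (fun x => (InE n (n + 1 - x)).filter (fun e => 1 ≤ e.1.1 ∧ e.1.1 < n / 2 + 1))
    (fun x y => mkE n hn (n + 1 - y) (n + 1 - x)) (n - n / 2)
    (by
      intro x y h1 h2 h3
      rw [mem_OutE, mkE_val hn (by omega) (by omega) (by omega)])
    (by
      intro y z _ _ _ _ hyz
      rw [Finset.disjoint_left]
      intro e h1 h2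
      rw [mem_OutE] at h1 h2
      omega)
    (by
      intro y z _ _ _ _ hyz
      rw [Finset.disjoint_left]
      intro e h1 h2
      rw [Finset.mem_filter, mem_InE] at h1 h2
      omega)
    (by
      intro y z _ _ _ _
      rw [Finset.disjoint_left]
      intro e h1 h2
      rw [mem_OutE] at h1
      rw [Finset.mem_filter, mem_InE] at h2
      omega)
    (by
      intro y h1 h2
      have := card_OutE_filter hn (n + 1 - y) (n + 1 - y + 1) n (by omega) (by omega) le_rfl
      have h3 := Finset.card_filter_le (OutE n (n + 1 - y))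
        (fun e => n + 1 - y + 1 ≤ e.1.2 ∧ e.1.2 ≤ n)
      omega)
    (by
      intro y x h1 h2 h3
      have := card_InE_filter hn (n + 1 - x) 1 (n / 2 + 1) le_rfl (by omega) (by omega)
      omega)
    k ((Finset.univ : Finset (EdgeOrder n)).filter (fun σ => ∃ x : ℕ → ℕ,
      (∀ i < k, (x i, x (i + 1)) ∈ output n σ) ∧ n / 2 < x 0 ∧ x k ≤ n))
    (by
      intro σ hσ
      rw [Finset.mem_filter] at hσ
      obtain ⟨_, x, hx, hx0, hxk⟩ := hσ
      have hedge : ∀ i < k, 1 ≤ x i ∧ x i < x (i + 1) ∧ x (i + 1) ≤ n := by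
        intro i hi
        exact mem_edges.1 (graphAfter_subset_edges σ _ (hx i hi))
      have hlow : ∀ i ≤ k, n / 2 < x i := by
        intro i hi
        induction i with
        | zero => exact hx0
        | succ i ih =>
          have := (hedge i (by omega)).2.1
          have := ih (by omega)
          omega
      have hup : ∀ i ≤ k, x i ≤ n := by
        intro i hi
        rcases Nat.lt_or_ge i k with h1 | h1
        · have := hedge i h1
          omega
        · have : i = k := by omega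
          rw [this]; exact hxk
      refine ⟨fun i => n + 1 - x (k - i), ?_, ?_, ?_, ?_⟩
      · have := hup (k - 0) (by omega)
        show 1 ≤ n + 1 - x (k - 0)
        omega
      · have := hlow (k - k) (by omega)
        show n + 1 - x (k - k) ≤ n - n / 2
        omega
      · intro i hi
        have h1 := (hedge (k - (i + 1)) (by omega)).2.1
        have h2 : k - (i + 1) + 1 = k - i := by omega
        rw [h2] at h1
        have h3 := hup (k - i) (by omega)
        simp only
        omega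
      · intro i hi
        have h2 : k - (i + 1) + 1 = k - i := by omega
        have he := hedge (k - (i + 1)) (by omega)
        have hmem := hx (k - (i + 1)) (by omega)
        rw [h2] at he hmem
        have h3 := hup (k - i) (by omega)
        have h4 := hup (k - (i + 1)) (by omega)
        have r1 : n + 1 - (n + 1 - x (k - i)) = x (k - i) := by omega
        have r2 : n + 1 - (n + 1 - x (k - (i + 1))) = x (k - (i + 1)) := by omega
        simp only [r1, r2]
        have hv := mkE_val hn he.1 he.2.1 he.2.2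
        rcases last_of_mem_output σ (mkE n hn (x (k - (i + 1))) (x (k - i)))
          (by rw [hv]; exact hmem) with h1 | h1
        · right
          intro f hf
          apply h1
          rcases Finset.mem_insert.1 hf with rfl | hf
          · rfl
          · rw [Finset.mem_filter, mem_InE] at hf
            rw [hf.1, hv]
        · left
          intro f hf
          apply h1
          rw [mem_OutE] at hf
          rw [hf, hv])
  refine le_trans h ?_
  apply mul_le_mul_of_nonneg_left _ (by positivity)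
  have : ((n - n / 2 : ℕ) : ℝ) ≤ (n : ℝ) := by exact_mod_cast Nat.sub_le n (n / 2)
  gcongr

instance (n : ℕ) : Nonempty (EdgeOrder n) := ⟨(edges n).equivFin.symm⟩

lemma card_pos (n : ℕ) : (0 : ℝ) < (Fintype.card (EdgeOrder n) : ℝ) := by
  exact_mod_cast Fintype.card_pos

/-- The main upper estimate. -/
lemma expectedL_le (hn : 2 ≤ n) (k : ℕ) :
    expectedL n ≤ (2 * k + 1) + 2 * (n : ℝ) ^ 6 / 2 ^ k := by
  classical
  set Slow := (Finset.univ : Finset (EdgeOrder n)).filter (fun σ => ∃ x : ℕ → ℕ,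
      (∀ i < k, (x i, x (i + 1)) ∈ output n σ) ∧ x k ≤ n / 2 ∧ 1 ≤ x 0) with hSlow
  set Sup := (Finset.univ : Finset (EdgeOrder n)).filter (fun σ => ∃ x : ℕ → ℕ,
      (∀ i < k, (x i, x (i + 1)) ∈ output n σ) ∧ n / 2 < x 0 ∧ x k ≤ n) with hSup
  have h1 := count_low hn k
  have h2 := count_up hn k
  rw [← hSlow] at h1
  rw [← hSup] at h2
  have hpt : ∀ σ : EdgeOrder n, (maxPathLength (output n σ) : ℝ) ≤
      (2 * k + 1) + ((if σ ∈ Slow then (n : ℝ) else 0) + (if σ ∈ Sup then (n : ℝ) else 0)) := by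
    intro σ
    have hsub : output n σ ⊆ edges n := graphAfter_subset_edges σ _
    have hp := hasPath_maxPathLength hsub
    have hle := HasPath.le hsub hp
    by_cases hL : maxPathLength (output n σ) ≤ 2 * k + 1
    · have : (maxPathLength (output n σ) : ℝ) ≤ 2 * k + 1 := by exact_mod_cast hL
      have e1 : (0 : ℝ) ≤ (if σ ∈ Slow then (n : ℝ) else 0) := by split_ifs <;> positivity
      have e2 : (0 : ℝ) ≤ (if σ ∈ Sup then (n : ℝ) else 0) := by split_ifs <;> positivity
      linarith
    · push Not at hL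
      obtain ⟨x, hx⟩ := hp.mono (l := 2 * k + 1) (by omega)
      have hedge : ∀ i < 2 * k + 1, 1 ≤ x i ∧ x i < x (i + 1) ∧ x (i + 1) ≤ n := by
        intro i hi
        exact mem_edges.1 (hsub (hx i hi))
      have hnn : (maxPathLength (output n σ) : ℝ) ≤ n := by exact_mod_cast hle
      have e0 : (0 : ℝ) ≤ 2 * (k : ℝ) + 1 := by positivity
      rcases Nat.lt_or_ge (n / 2) (x k) with hk | hk
      · have : σ ∈ Sup := by
          rw [hSup, Finset.mem_filter]
          refine ⟨Finset.mem_univ _, fun i => x (k + i), ?_, hk, ?_⟩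
          · intro i hi
            exact hx (k + i) (by omega)
          · have := hedge (k + k) (by omega)
            simp only
            omega
        rw [if_pos this]
        have e1 : (0 : ℝ) ≤ (if σ ∈ Slow then (n : ℝ) else 0) := by split_ifs <;> positivity
        linarith
      · have : σ ∈ Slow := by
          rw [hSlow, Finset.mem_filter]
          refine ⟨Finset.mem_univ _, x, ?_, hk, ?_⟩
          · intro i hi
            exact hx i (by omega)
          · exact (hedge 0 (by omega)).1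
        rw [if_pos this]
        have e1 : (0 : ℝ) ≤ (if σ ∈ Sup then (n : ℝ) else 0) := by split_ifs <;> positivity
        linarith
  have hsum : ∑ σ : EdgeOrder n, (maxPathLength (output n σ) : ℝ) ≤
      (Fintype.card (EdgeOrder n) : ℝ) * (2 * k + 1) + (Slow.card * (n : ℝ) + Sup.card * n) := by
    refine le_trans (Finset.sum_le_sum (fun σ _ => hpt σ)) ?_
    have hS : ∀ S : Finset (EdgeOrder n),
        ∑ σ : EdgeOrder n, (if σ ∈ S then (n : ℝ) else 0) = S.card * (n : ℝ) := by
      intro S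
      rw [← Finset.sum_filter, Finset.sum_const, nsmul_eq_mul]
      congr 3
      ext σ
      simp
    generalize (2 * (k : ℝ) + 1) = c0
    rw [Finset.sum_add_distrib, Finset.sum_add_distrib, hS, hS, Finset.sum_const,
      Finset.card_univ, nsmul_eq_mul]
  have hc := card_pos n
  have h2k : (0 : ℝ) < 2 ^ k := by positivity
  unfold expectedL
  rw [div_le_iff₀ hc]
  refine le_trans hsum ?_
  have h1' : (Slow.card : ℝ) ≤ (Fintype.card (EdgeOrder n) : ℝ) * (n : ℝ) ^ 5 / 2 ^ k := by
    rw [le_div_iff₀ h2k]; exact h1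
  have h2' : (Sup.card : ℝ) ≤ (Fintype.card (EdgeOrder n) : ℝ) * (n : ℝ) ^ 5 / 2 ^ k := by
    rw [le_div_iff₀ h2k]; exact h2
  have hn0 : (0 : ℝ) ≤ (n : ℝ) := by positivity
  have h3 : Slow.card * (n : ℝ) + Sup.card * n ≤
      2 * ((Fintype.card (EdgeOrder n) : ℝ) * (n : ℝ) ^ 5 / 2 ^ k) * n := by nlinarith
  have h4 : 2 * ((Fintype.card (EdgeOrder n) : ℝ) * (n : ℝ) ^ 5 / 2 ^ k) * n
      = 2 * (n : ℝ) ^ 6 / 2 ^ k * (Fintype.card (EdgeOrder n) : ℝ) := by ring
  rw [h4] at h3
  nlinarith

end Upper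

/-! ## The lower bound -/

section Lower

variable {n : ℕ}

open Classical in
/-- The number of steps of the chain of last in-edges from `y` down to `1`. -/
noncomputable def D (hn : 2 ≤ n) (σ : EdgeOrder n) : ℕ → ℝ
  | y => ∑ x : Fin y, (if 1 ≤ (x : ℕ) ∧ Last σ (InE n y) (mkE n hn x y) then 1 + D hn σ x else 0)

lemma D_nonneg (hn : 2 ≤ n) (σ : EdgeOrder n) (y : ℕ) : 0 ≤ D hn σ y := by
  induction y using Nat.strong_induction_on with
  | _ y ih =>
    rw [D]
    apply Finset.sum_nonneg
    intro x _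
    split_ifs
    · have := ih x x.2
      linarith
    · exact le_rfl

lemma D_congr (hn : 2 ≤ n) (σ : EdgeOrder n) (s : Equiv.Perm {e : ℕ × ℕ // e ∈ edges n})
    (y : ℕ) (hy : y ≤ n) (h1 : ∀ z, 1 ≤ z → z ≤ y → ∀ g ∈ InE n z, s.symm g = g) :
    D hn (σ.trans s) y = D hn σ y := by
  classical
  induction y using Nat.strong_induction_on with
  | _ y ih =>
    rw [D, D]
    apply Finset.sum_congr rfl
    intro x _
    by_cases hx : 1 ≤ (x : ℕ)
    · have hxy : (x : ℕ) < y := x.2
      have hmem : mkE n hn x y ∈ InE n y := by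
        rw [mem_InE, mkE_val hn hx hxy hy]
      have hs : s.symm (mkE n hn x y) = mkE n hn x y := h1 y (by omega) le_rfl _ hmem
      have e1 : Last (σ.trans s) (InE n y) (mkE n hn x y) ↔ Last σ (InE n y) (mkE n hn x y) := by
        unfold Last
        apply forall₂_congr
        intro f hf
        simp only [Equiv.symm_trans_apply]
        rw [hs, h1 y (by omega) le_rfl f hf]
      have e2 := ih x hxy (by omega) (fun z hz1 hz2 => h1 z hz1 (by omega))
      rw [e2]
      exact if_congr (and_congr_right (fun _ => e1)) rfl rfl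
    · rw [if_neg (fun h => hx h.1), if_neg (fun h => hx h.1)]

lemma card_InE (hn : 2 ≤ n) (y : ℕ) (hy : y ≤ n) : (InE n y).card = y - 1 := by
  apply le_antisymm
  · have : (Finset.Ico 1 y).card = y - 1 := by simp
    rw [← this]
    apply Finset.card_le_card_of_injOn (fun e => e.1.1)
    · intro e he
      have he' := mem_InE.1 he
      have := mem_edges.1 e.2
      rw [Finset.mem_coe, Finset.mem_Ico]
      show 1 ≤ e.1.1 ∧ e.1.1 < y
      omega
    · intro e he f hf hef
      have he' := mem_InE.1 he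
      have hf' := mem_InE.1 hf
      exact Subtype.ext (Prod.ext hef (he'.trans hf'.symm))
  · have := card_InE_filter hn y 1 y le_rfl le_rfl hy
    have h3 := Finset.card_filter_le (InE n y) (fun e => 1 ≤ e.1.1 ∧ e.1.1 < y)
    omega

open Classical in
/-- The recursion for the expected number of steps. -/
lemma sum_D_rec (hn : 2 ≤ n) (y : ℕ) (hy2 : 2 ≤ y) (hyn : y ≤ n) :
    ((y : ℝ) - 1) * ∑ σ : EdgeOrder n, D hn σ y =
      ((y : ℝ) - 1) * (Fintype.card (EdgeOrder n) : ℝ) +
        ∑ x ∈ Finset.Ico 1 y, ∑ σ : EdgeOrder n, D hn σ x := by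
  have key : ∀ x : ℕ, 1 ≤ x → x < y →
      ((y : ℝ) - 1) * ∑ σ : EdgeOrder n,
        (if 1 ≤ x ∧ Last σ (InE n y) (mkE n hn x y) then 1 + D hn σ x else 0)
        = (Fintype.card (EdgeOrder n) : ℝ) + ∑ σ : EdgeOrder n, D hn σ x := by
    intro x hx hxy
    have hεI : mkE n hn x y ∈ InE n y := by
      rw [mem_InE, mkE_val hn hx hxy hyn]
    have s1 := sum_last (N := (edges n).card) (InE n y) (mkE n hn x y) hεI
      (fun σ => 1 + D hn σ x) (by
        intro f hf σ
        congr 1
        apply D_congr hn σ _ x (by omega)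
        intro z hz1 hz2 g hg
        rw [Equiv.symm_swap]
        rw [mem_InE] at hg hf hεI
        apply Equiv.swap_apply_of_ne_of_ne
        · rintro rfl; omega
        · rintro rfl; omega)
    have hcard : ((InE n y).card : ℝ) = (y : ℝ) - 1 := by
      rw [card_InE hn y hyn]
      push_cast [Nat.cast_sub (by omega : 1 ≤ y)]
      ring
    rw [hcard] at s1
    have s2 : ∑ σ : EdgeOrder n, (1 + D hn σ x) =
        (Fintype.card (EdgeOrder n) : ℝ) + ∑ σ : EdgeOrder n, D hn σ x := by
      rw [Finset.sum_add_distrib]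
      simp
    rw [← s2, ← s1]
    congr 1
    apply Finset.sum_congr rfl
    intro σ _
    exact if_congr (by simp [hx]) rfl rfl
  have hexp : ∑ σ : EdgeOrder n, D hn σ y = ∑ x : Fin y, ∑ σ : EdgeOrder n,
        (if 1 ≤ (x : ℕ) ∧ Last σ (InE n y) (mkE n hn x y) then 1 + D hn σ x else 0) := by
    rw [Finset.sum_comm]
    apply Finset.sum_congr rfl
    intro σ _
    rw [D]
  rw [hexp, Fin.sum_univ_eq_sum_range (fun x : ℕ => ∑ σ : EdgeOrder n,
        (if 1 ≤ (x : ℕ) ∧ Last σ (InE n y) (mkE n hn x y) then 1 + D hn σ x else 0)) y,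
    Finset.range_eq_Ico, Finset.sum_eq_sum_Ico_succ_bot (by omega : 0 < y)]
  have hzero : ∑ σ : EdgeOrder n,
        (if 1 ≤ (0 : ℕ) ∧ Last σ (InE n y) (mkE n hn 0 y) then 1 + D hn σ 0 else 0) = 0 := by
    simp
  rw [hzero, zero_add, Finset.mul_sum]
  rw [Finset.sum_congr rfl (fun x hx => key x (by have := (Finset.mem_Ico.1 hx).1; omega)
    (Finset.mem_Ico.1 hx).2)]
  rw [Finset.sum_add_distrib, Finset.sum_const, Nat.card_Ico, nsmul_eq_mul]
  congr 1
  congr 1
  push_cast [Nat.cast_sub (by omega : 1 ≤ y)]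
  ring

/-- The expected number of steps of the chain is a harmonic number. -/
lemma sum_D_eq (hn : 2 ≤ n) (m : ℕ) (hm : m + 1 ≤ n) :
    ∑ σ : EdgeOrder n, D hn σ (m + 1) =
      (Fintype.card (EdgeOrder n) : ℝ) * ((harmonic m : ℚ) : ℝ) := by
  have hone : ∑ σ : EdgeOrder n, D hn σ 1 = 0 := by
    apply Finset.sum_eq_zero
    intro σ _
    rw [D]
    simp
  induction m with
  | zero => simp [hone]
  | succ m ih =>
    have ih' := ih (by omega)
    rcases Nat.eq_zero_or_pos m with h0 | h0
    · subst h0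
      have r := sum_D_rec hn 2 le_rfl (by omega)
      have e : Finset.Ico 1 2 = {1} := by decide
      rw [e, Finset.sum_singleton, hone] at r
      norm_num at r
      simp only [zero_add, Nat.reduceAdd]
      rw [r]
      simp [harmonic]
    · have r1 := sum_D_rec hn (m + 1) (by omega) (by omega)
      have r2 := sum_D_rec hn (m + 2) (by omega) (by omega)
      rw [Finset.sum_Ico_succ_top (by omega : 1 ≤ m + 1)] at r2
      rw [harmonic_succ]
      push_cast at r1 r2 ⊢
      rw [ih'] at r1 r2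
      have hm0 : ((m : ℝ) + 1) ≠ 0 := by positivity
      have e2 : ((m : ℝ) + 1) * ∑ σ : EdgeOrder n, D hn σ (m + 1 + 1) =
        ((m : ℝ) + 1) * ((Fintype.card (EdgeOrder n) : ℝ) *
          (((harmonic m : ℚ) : ℝ) + ((m : ℝ) + 1)⁻¹)) := by
        have e3 : (Fintype.card (EdgeOrder n) : ℝ) * ((m : ℝ) + 1)⁻¹ * ((m : ℝ) + 1)
          = (Fintype.card (EdgeOrder n) : ℝ) := by
          field_simp
        have e4 : m + 2 = m + 1 + 1 := rfl
        rw [e4] at r2
        linear_combination r2 - r1 - e3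
      exact mul_left_cancel₀ hm0 e2

end Lower

section Lower2

variable {n : ℕ}

/-- The orders for which some vertex `y ≤ m` is the head of the last out-edge of a vertex. -/
def Bad (hn : 2 ≤ n) (m : ℕ) (σ : EdgeOrder n) : Prop :=
  ∃ y ∈ Finset.Icc 2 m, ∃ x ∈ Finset.Ico 1 y, Last σ (OutE n x) (mkE n hn x y)

lemma chain_path (hn : 2 ≤ n) (m : ℕ) (hm : m ≤ n) (σ : EdgeOrder n) (hσ : ¬ Bad hn m σ)
    (y : ℕ) (hy1 : 1 ≤ y) (hym : y ≤ m) :
    ∃ k : ℕ, (k : ℝ) = D hn σ y ∧
      ∃ x : ℕ → ℕ, (∀ i < k, (x i, x (i + 1)) ∈ output n σ) ∧ x k = y := by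
  classical
  induction y using Nat.strong_induction_on with
  | _ y ih =>
    rcases Nat.eq_or_lt_of_le hy1 with h1 | h1
    · subst h1
      refine ⟨0, ?_, fun _ => 1, by intro i hi; omega, rfl⟩
      rw [D]
      simp
    · obtain ⟨x₀, hx₀⟩ := exists_in_edge σ y h1 (by omega)
      have hedge := mem_edges.1 (graphAfter_subset_edges σ _ hx₀)
      simp only at hedge
      have hv := mkE_val hn hedge.1 hedge.2.1 hedge.2.2
      have hlast : Last σ (InE n y) (mkE n hn x₀ y) := by
        rcases last_of_mem_output σ (mkE n hn x₀ y) (by rw [hv]; exact hx₀) with h2 | h2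
        · intro f hf
          apply h2
          rw [mem_InE] at hf
          rw [hf, hv]
        · exfalso
          apply hσ
          refine ⟨y, Finset.mem_Icc.2 ⟨h1, hym⟩, x₀, Finset.mem_Ico.2 ⟨hedge.1, hedge.2.1⟩, ?_⟩
          intro f hf
          apply h2
          rw [mem_OutE] at hf
          rw [hf, hv]
      obtain ⟨k, hk, x, hx, hxk⟩ := ih x₀ hedge.2.1 hedge.1 (by omega)
      refine ⟨k + 1, ?_, fun i => if i ≤ k then x i else y, ?_, ?_⟩
      · rw [D, Finset.sum_eq_single (⟨x₀, hedge.2.1⟩ : Fin y)]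
        · rw [if_pos ⟨hedge.1, hlast⟩, ← hk]
          push_cast
          ring
        · intro z _ hz
          rw [if_neg]
          rintro ⟨hz1, hz2⟩
          apply hz
          have hvz := mkE_val hn hz1 z.2 (by omega)
          have m1 : mkE n hn x₀ y ∈ InE n y := by rw [mem_InE, hv]
          have m2 : mkE n hn z y ∈ InE n y := by rw [mem_InE, hvz]
          have e1 := hlast _ m2
          have e2 := hz2 _ m1
          have e3 := σ.symm.injective (le_antisymm e1 e2)
          have e4 : (mkE n hn z y : ℕ × ℕ) = (mkE n hn x₀ y : ℕ × ℕ) := congrArg Subtype.val e3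
          rw [hv, hvz] at e4
          exact Fin.ext (Prod.mk.inj e4).1
        · intro h; exact absurd (Finset.mem_univ _) h
      · intro i hi
        rcases Nat.lt_or_ge i k with hik | hik
        · simp only
          rw [if_pos (by omega), if_pos (by omega)]
          exact hx i hik
        · have hik' : i = k := by omega
          subst hik'
          simp only
          rw [if_pos le_rfl, if_neg (by omega), hxk]
          exact hx₀
      · simp

open Classical in
lemma card_bad (hn : 2 ≤ n) (m : ℕ) (hm : m < n) :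
    (((Finset.univ : Finset (EdgeOrder n)).filter (fun σ => Bad hn m σ)).card : ℝ) *
      ((n : ℝ) - m) ≤ (m : ℝ) ^ 2 * (Fintype.card (EdgeOrder n) : ℝ) := by
  have hnm : (0 : ℝ) < (n : ℝ) - m := by
    have : (m : ℝ) < n := by exact_mod_cast hm
    linarith
  have h1 : ∀ x y : ℕ, 1 ≤ x → x < y → y ≤ m →
      (((Finset.univ : Finset (EdgeOrder n)).filter
        (fun σ => Last σ (OutE n x) (mkE n hn x y))).card : ℝ) * ((n : ℝ) - m) ≤
        (Fintype.card (EdgeOrder n) : ℝ) := by
    intro x y hx hxy hy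
    have hmem : mkE n hn x y ∈ OutE n x := by
      rw [mem_OutE, mkE_val hn hx hxy (by omega)]
    have s1 := sum_last (N := (edges n).card) (OutE n x) (mkE n hn x y) hmem
      (fun _ => (1 : ℝ)) (by intros; rfl)
    have s2 : ∑ σ : EdgeOrder n, (if Last σ (OutE n x) (mkE n hn x y) then (1 : ℝ) else 0) =
        (((Finset.univ : Finset (EdgeOrder n)).filter
        (fun σ => Last σ (OutE n x) (mkE n hn x y))).card : ℝ) := by
      rw [← Finset.sum_filter, Finset.sum_const, nsmul_eq_mul, mul_one]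
    have s3 : ∑ σ : EdgeOrder n, (1 : ℝ) = (Fintype.card (EdgeOrder n) : ℝ) := by simp
    rw [s2, s3] at s1
    rw [← s1, mul_comm]
    apply mul_le_mul_of_nonneg_right _ (by positivity)
    have c1 := card_OutE_filter hn x (x + 1) n hx (by omega) le_rfl
    have c2 := Finset.card_filter_le (OutE n x) (fun e => x + 1 ≤ e.1.2 ∧ e.1.2 ≤ n)
    have c3 : n - m ≤ (OutE n x).card := by omega
    have c4 : ((n - m : ℕ) : ℝ) ≤ ((OutE n x).card : ℝ) := by exact_mod_cast c3
    rw [Nat.cast_sub (le_of_lt hm)] at c4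
    exact c4
  have hsub : ((Finset.univ : Finset (EdgeOrder n)).filter (fun σ => Bad hn m σ)) ⊆
      (Finset.Icc 2 m).biUnion (fun y => (Finset.Ico 1 y).biUnion (fun x =>
        (Finset.univ : Finset (EdgeOrder n)).filter
          (fun σ => Last σ (OutE n x) (mkE n hn x y)))) := by
    intro σ hσ
    rw [Finset.mem_filter] at hσ
    obtain ⟨_, y, hy, x, hx, hl⟩ := hσ
    rw [Finset.mem_biUnion]
    refine ⟨y, hy, ?_⟩
    rw [Finset.mem_biUnion]
    refine ⟨x, hx, ?_⟩
    rw [Finset.mem_filter]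
    exact ⟨Finset.mem_univ _, hl⟩
  have h2 : (((Finset.univ : Finset (EdgeOrder n)).filter (fun σ => Bad hn m σ)).card : ℝ) ≤
      ∑ y ∈ Finset.Icc 2 m, ∑ x ∈ Finset.Ico 1 y,
        (((Finset.univ : Finset (EdgeOrder n)).filter
          (fun σ => Last σ (OutE n x) (mkE n hn x y))).card : ℝ) := by
    have h3 := Finset.card_le_card hsub
    have h4 := h3.trans (Finset.card_biUnion_le)
    have h5 := h4.trans (Finset.sum_le_sum (fun y _ => Finset.card_biUnion_le))
    exact_mod_cast h5
  have h6 : ∑ y ∈ Finset.Icc 2 m, ∑ x ∈ Finset.Ico 1 y,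
        (((Finset.univ : Finset (EdgeOrder n)).filter
          (fun σ => Last σ (OutE n x) (mkE n hn x y))).card : ℝ) ≤
      ∑ y ∈ Finset.Icc 2 m, ∑ x ∈ Finset.Ico 1 y,
        (Fintype.card (EdgeOrder n) : ℝ) / ((n : ℝ) - m) := by
    apply Finset.sum_le_sum
    intro y hy
    apply Finset.sum_le_sum
    intro x hx
    rw [Finset.mem_Icc] at hy
    rw [Finset.mem_Ico] at hx
    rw [le_div_iff₀ hnm]
    exact h1 x y hx.1 hx.2 hy.2
  have h7 : ∑ y ∈ Finset.Icc 2 m, ∑ x ∈ Finset.Ico 1 y,
        (Fintype.card (EdgeOrder n) : ℝ) / ((n : ℝ) - m) ≤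
      (m : ℝ) * ((m : ℝ) * ((Fintype.card (EdgeOrder n) : ℝ) / ((n : ℝ) - m))) := by
    have hq : 0 ≤ (Fintype.card (EdgeOrder n) : ℝ) / ((n : ℝ) - m) := by positivity
    calc ∑ y ∈ Finset.Icc 2 m, ∑ x ∈ Finset.Ico 1 y,
        (Fintype.card (EdgeOrder n) : ℝ) / ((n : ℝ) - m)
        ≤ ∑ y ∈ Finset.Icc 2 m, (m : ℝ) * ((Fintype.card (EdgeOrder n) : ℝ) / ((n : ℝ) - m)) := by
          apply Finset.sum_le_sum
          intro y hy
          rw [Finset.sum_const, Nat.card_Ico, nsmul_eq_mul]
          apply mul_le_mul_of_nonneg_right _ hq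
          rw [Finset.mem_Icc] at hy
          exact_mod_cast (by omega : y - 1 ≤ m)
      _ ≤ _ := by
          rw [Finset.sum_const, Nat.card_Icc, nsmul_eq_mul]
          apply mul_le_mul_of_nonneg_right _ (by positivity)
          exact_mod_cast (by omega : m + 1 - 2 ≤ m)
  have h8 := h2.trans (h6.trans h7)
  have h9 : (m : ℝ) * ((m : ℝ) * ((Fintype.card (EdgeOrder n) : ℝ) / ((n : ℝ) - m))) *
      ((n : ℝ) - m) = (m : ℝ) ^ 2 * (Fintype.card (EdgeOrder n) : ℝ) := by
    field_simp
  calc _ ≤ (m : ℝ) * ((m : ℝ) * ((Fintype.card (EdgeOrder n) : ℝ) / ((n : ℝ) - m))) *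
      ((n : ℝ) - m) := mul_le_mul_of_nonneg_right h8 hnm.le
    _ = _ := h9

lemma D_le (hn : 2 ≤ n) (σ : EdgeOrder n) (y : ℕ) (hyn : y ≤ n) : D hn σ y ≤ y := by
  classical
  induction y using Nat.strong_induction_on with
  | _ y ih =>
    rw [D]
    by_cases hex : ∃ z : Fin y, 1 ≤ (z : ℕ) ∧ Last σ (InE n y) (mkE n hn z y)
    · obtain ⟨z, hz1, hz2⟩ := hex
      rw [Finset.sum_eq_single z]
      · rw [if_pos ⟨hz1, hz2⟩]
        have h1 := ih z z.2 (by omega)
        have h2 : ((z : ℕ) : ℝ) + 1 ≤ y := by exact_mod_cast z.2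
        linarith
      · intro w _ hw
        rw [if_neg]
        rintro ⟨hw1, hw2⟩
        apply hw
        have hvz := mkE_val hn hz1 z.2 hyn
        have hvw := mkE_val hn hw1 w.2 hyn
        have m1 : mkE n hn z y ∈ InE n y := by rw [mem_InE, hvz]
        have m2 : mkE n hn w y ∈ InE n y := by rw [mem_InE, hvw]
        have e3 := σ.symm.injective (le_antisymm (hz2 _ m2) (hw2 _ m1))
        have e4 : (mkE n hn w y : ℕ × ℕ) = (mkE n hn z y : ℕ × ℕ) := congrArg Subtype.val e3
        rw [hvw, hvz] at e4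
        exact Fin.ext (Prod.mk.inj e4).1
      · intro h; exact absurd (Finset.mem_univ _) h
    · rw [Finset.sum_eq_zero]
      · positivity
      · intro z _
        rw [if_neg]
        intro hz
        exact hex ⟨z, hz⟩

/-- The main lower estimate. -/
lemma le_expectedL (hn : 2 ≤ n) (m : ℕ) (hm : m + 1 < n) :
    ((harmonic m : ℚ) : ℝ) - ((m : ℝ) + 1) ^ 3 / ((n : ℝ) - (m + 1)) ≤ expectedL n := by
  classical
  set S := (Finset.univ : Finset (EdgeOrder n)).filter (fun σ => Bad hn (m + 1) σ) with hS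
  have hbad := card_bad hn (m + 1) hm
  rw [← hS] at hbad
  have hnm : (0 : ℝ) < (n : ℝ) - (m + 1) := by
    have : ((m + 1 : ℕ) : ℝ) < n := by exact_mod_cast hm
    push_cast at this
    linarith
  have hpt : ∀ σ : EdgeOrder n, D hn σ (m + 1) - (if σ ∈ S then ((m : ℝ) + 1) else 0) ≤
      (maxPathLength (output n σ) : ℝ) := by
    intro σ
    by_cases hσ : σ ∈ S
    · rw [if_pos hσ]
      have h1 := D_le hn σ (m + 1) (by omega)
      push_cast at h1
      have h2 : (0 : ℝ) ≤ (maxPathLength (output n σ) : ℝ) := by positivity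
      linarith
    · rw [if_neg hσ]
      have hσ' : ¬ Bad hn (m + 1) σ := by
        intro h
        exact hσ (by rw [hS, Finset.mem_filter]; exact ⟨Finset.mem_univ _, h⟩)
      obtain ⟨k, hk, x, hx, _⟩ := chain_path hn (m + 1) (by omega) σ hσ' (m + 1) (by omega) le_rfl
      have h1 := le_maxPathLength (graphAfter_subset_edges σ (edges n).card) ⟨x, hx⟩
      have h2 : (k : ℝ) ≤ (maxPathLength (output n σ) : ℝ) := by exact_mod_cast h1
      rw [hk] at h2
      linarith
  have hsum := Finset.sum_le_sum (fun σ (_ : σ ∈ (Finset.univ : Finset (EdgeOrder n))) => hpt σ)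
  rw [Finset.sum_sub_distrib, sum_D_eq hn m (by omega)] at hsum
  have hS' : ∑ σ : EdgeOrder n, (if σ ∈ S then ((m : ℝ) + 1) else 0) = S.card * ((m : ℝ) + 1) := by
    rw [← Finset.sum_filter, Finset.sum_const, nsmul_eq_mul]
    congr 3
    ext σ
    simp
  rw [hS'] at hsum
  have hc := card_pos n
  unfold expectedL
  rw [le_div_iff₀ hc]
  refine le_trans ?_ hsum
  have hb : (S.card : ℝ) ≤ ((m : ℝ) + 1) ^ 2 * (Fintype.card (EdgeOrder n) : ℝ) /
      ((n : ℝ) - (m + 1)) := by
    rw [le_div_iff₀ hnm]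
    push_cast at hbad
    exact hbad
  have hb2 : (S.card : ℝ) * ((m : ℝ) + 1) ≤ ((m : ℝ) + 1) ^ 2 *
      (Fintype.card (EdgeOrder n) : ℝ) / ((n : ℝ) - (m + 1)) * ((m : ℝ) + 1) :=
    mul_le_mul_of_nonneg_right hb (by positivity)
  have hb3 : ((m : ℝ) + 1) ^ 2 *
      (Fintype.card (EdgeOrder n) : ℝ) / ((n : ℝ) - (m + 1)) * ((m : ℝ) + 1) =
      ((m : ℝ) + 1) ^ 3 / ((n : ℝ) - (m + 1)) * (Fintype.card (EdgeOrder n) : ℝ) := by ring
  rw [hb3] at hb2
  rw [sub_mul]
  linarith

end Lower2

/-! ## The theorem -/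

lemma upper_final (n : ℕ) (hn : 3 ≤ n) : expectedL n ≤ 40 * Real.log n := by
  have hn2 : 2 ≤ n := by omega
  set k := 6 * Nat.clog 2 n with hk
  have h := expectedL_le hn2 k
  have hn0 : (0 : ℝ) < (n : ℝ) := by positivity
  have h1 : (n : ℝ) ^ 6 ≤ 2 ^ k := by
    have : n ≤ 2 ^ Nat.clog 2 n := Nat.le_pow_clog (by norm_num) n
    have h2 : (n : ℝ) ≤ 2 ^ Nat.clog 2 n := by exact_mod_cast this
    calc (n : ℝ) ^ 6 ≤ (2 ^ Nat.clog 2 n) ^ 6 := by gcongr
      _ = 2 ^ k := by rw [hk, ← pow_mul, mul_comm]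
  have h2 : 2 * (n : ℝ) ^ 6 / 2 ^ k ≤ 2 := by
    rw [div_le_iff₀ (by positivity)]
    linarith
  have hlog1 : 1 ≤ Real.log n := by
    rw [Real.le_log_iff_exp_le hn0]
    have := Real.exp_one_lt_d9
    have h3 : (3 : ℝ) ≤ n := by exact_mod_cast hn
    linarith
  have hclog : (Nat.clog 2 n : ℝ) ≤ Real.log n / Real.log 2 + 1 := by
    have h3 : Nat.clog 2 n ≤ Nat.log 2 n + 1 := by
      apply Nat.clog_le_of_le_pow
      exact (Nat.lt_pow_succ_log_self (by norm_num) n).le
    have h4 : (Nat.log 2 n : ℝ) ≤ Real.log n / Real.log 2 := by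
      rw [le_div_iff₀ (Real.log_pos (by norm_num))]
      rw [← Real.log_pow]
      apply Real.log_le_log (by positivity)
      exact_mod_cast Nat.pow_log_le_self 2 (by omega)
    have h5 : (Nat.clog 2 n : ℝ) ≤ (Nat.log 2 n : ℝ) + 1 := by exact_mod_cast h3
    linarith
  have hl2 : 0.6931471803 < Real.log 2 := Real.log_two_gt_d9
  have hdiv : Real.log n / Real.log 2 ≤ 1.5 * Real.log n := by
    rw [div_le_iff₀ (by linarith)]
    nlinarith
  have hkr : (k : ℝ) = 6 * (Nat.clog 2 n : ℝ) := by rw [hk]; push_cast; ring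
  have : expectedL n ≤ 2 * (6 * (1.5 * Real.log n + 1)) + 1 + 2 := by
    rw [hkr] at h
    linarith
  linarith

lemma lower_final (n : ℕ) (hn : Real.exp 20 ≤ n) : (1 / 8) * Real.log n ≤ expectedL n := by
  have hn0 : (0 : ℝ) < (n : ℝ) := lt_of_lt_of_le (Real.exp_pos _) hn
  have hlog : 20 ≤ Real.log n := by
    rw [Real.le_log_iff_exp_le hn0]; exact hn
  set s := Nat.sqrt n with hs
  set m := Nat.sqrt s with hm
  have h1 : s * s ≤ n := Nat.sqrt_le n
  have h2 : m * m ≤ s := Nat.sqrt_le s
  have h3 : n < (s + 1) * (s + 1) := Nat.lt_succ_sqrt n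
  have h4 : s < (m + 1) * (m + 1) := Nat.lt_succ_sqrt s
  have h5 : m ^ 4 ≤ n := by
    calc m ^ 4 = (m * m) * (m * m) := by ring
      _ ≤ s * s := Nat.mul_le_mul h2 h2
      _ ≤ n := h1
  have h6 : n < (m + 1) ^ 4 := by
    calc n < (s + 1) * (s + 1) := h3
      _ ≤ ((m + 1) * (m + 1)) * ((m + 1) * (m + 1)) := Nat.mul_le_mul h4 h4
      _ = (m + 1) ^ 4 := by ring
  have h7 : Real.log n < 4 * Real.log ((m : ℝ) + 1) := by
    have : (n : ℝ) < ((m : ℝ) + 1) ^ 4 := by exact_mod_cast h6
    have h8 := Real.log_lt_log hn0 this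
    rwa [Real.log_pow] at h8
  have h9 : 2 ≤ m := by
    by_contra hcon
    push Not at hcon
    have e1 : (m : ℝ) + 1 ≤ 2 := by exact_mod_cast (by omega : m + 1 ≤ 2)
    have e2 : Real.log ((m : ℝ) + 1) ≤ Real.log 2 := Real.log_le_log (by positivity) e1
    have e3 := Real.log_two_lt_d9
    linarith
  clear_value m
  obtain ⟨m', rfl⟩ : ∃ m', m = m' + 1 := ⟨m - 1, by omega⟩
  have hmlt : m' + 1 < n := by
    have : m' + 1 < (m' + 1) ^ 4 := by
      calc m' + 1 = (m' + 1) ^ 1 := (pow_one _).symm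
        _ < (m' + 1) ^ 4 := Nat.pow_lt_pow_right (by omega) (by norm_num)
    omega
  have hmain := le_expectedL (n := n) (by omega) m' hmlt
  have hh := log_add_one_le_harmonic m'
  have hr9 : (2 : ℝ) ≤ (m' : ℝ) + 1 := by exact_mod_cast h9
  have hr5 : ((m' : ℝ) + 1) ^ 4 ≤ n := by exact_mod_cast h5
  have hfrac : ((m' : ℝ) + 1) ^ 3 / ((n : ℝ) - (m' + 1)) ≤ 1 := by
    have hc : ((m' : ℝ) + 1) ^ 3 ≥ 8 := by
      have : ((2 : ℝ)) ^ 3 ≤ ((m' : ℝ) + 1) ^ 3 := by gcongr
      norm_num at this
      exact this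
    have hd : ((m' : ℝ) + 1) ^ 4 = ((m' : ℝ) + 1) ^ 3 * ((m' : ℝ) + 1) := by ring
    have he : ((m' : ℝ) + 1) ^ 3 = ((m' : ℝ) + 1) ^ 2 * ((m' : ℝ) + 1) := by ring
    have hsq : (4 : ℝ) ≤ ((m' : ℝ) + 1) ^ 2 := by nlinarith
    have hpos : (0 : ℝ) < (n : ℝ) - (m' + 1) := by nlinarith
    rw [div_le_one hpos]
    nlinarith
  have hlog2 : Real.log (((m' : ℝ) + 1) + 1) ≤ Real.log 2 + Real.log ((m' : ℝ) + 1) := by
    rw [← Real.log_mul (by norm_num) (by positivity)]
    apply Real.log_le_log (by positivity)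
    linarith
  push_cast at h7 hh
  have hl2 := Real.log_two_lt_d9
  linarith

theorem result : ∃ c C : ℝ, 0 < c ∧ c ≤ C ∧ ∃ N : ℕ, ∀ n ≥ N,
    c * Real.log n ≤ expectedL n ∧ expectedL n ≤ C * Real.log n := by
  refine ⟨1 / 8, 40, by norm_num, by norm_num, max 3 ⌈Real.exp 20⌉₊, ?_⟩
  intro n hn
  have h1 : 3 ≤ n := le_trans (le_max_left _ _) hn
  have h2 : Real.exp 20 ≤ n := by
    have : ⌈Real.exp 20⌉₊ ≤ n := le_trans (le_max_right _ _) hn
    exact Nat.ceil_le.1 this
  exact ⟨lower_final n h2, upper_final n h1⟩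

end Pool.Agent.Results.MP_25bd62_pr.ThetaLog
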